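import Pool.Agent.H963Z.SumPos

set_option autoImplicit false

namespace Pool.Agent.Results.MP_cd1425_an.AAll

open Pool.Agent.H963Z.Sum

/-- Reiterative and uniform recurrence pass to direct sums, upper frequent and frequent
recurrence do not. -/
theorem result (𝕜 : Type) [RCLike 𝕜] :
    Stable (fun A => 0 < banachDens A) 𝕜 ∧ ¬ Stable (fun A => 0 < upperDens A) 𝕜 ∧
      ¬ Stable (fun A => 0 < lowerDens A) 𝕜 ∧ Stable Syndetic 𝕜 :=
  ⟨stable_banach 𝕜, not_stable_upper 𝕜, not_stable_lower 𝕜, stable_synd 𝕜⟩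

end Pool.Agent.Results.MP_cd1425_an.AAll
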